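import Pool.Agent.W633.LT.Stm2

set_option autoImplicit false

namespace Pool.Agent.W427.LG

open W633.LT

section ring
variable {k : Type} [Field k]

theorem mono_of_mem {x : Raw} {u : W633.LT.Lat} (hu : u ∈ x.mon) : x.mono k u =
    Ideal.Quotient.mk _ (AddMonoidAlgebra.single ⟨u, hu⟩ 1 : AddMonoidAlgebra k x.mon) :=
  dif_pos hu

theorem mono_zero (x : Raw) : x.mono k 0 = 1 := by
  rw [mono_of_mem x.mon.zero_mem]
  rfl

theorem mono_add {x : Raw} {u v : W633.LT.Lat} (hu : u ∈ x.mon) (hv : v ∈ x.mon) :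
    x.mono k u * x.mono k v = x.mono k (u + v) := by
  rw [mono_of_mem hu, mono_of_mem hv, mono_of_mem (add_mem hu hv), ← map_mul,
    AddMonoidAlgebra.single_mul_single]
  simp

theorem ringMap_mk {n : ℤ} {x y : Raw} (h : IsHom n x y) (f : AddMonoidAlgebra k x.mon) :
    ringMap k h (Ideal.Quotient.mk _ f) =
      Ideal.Quotient.mk _ (AddMonoidAlgebra.mapDomainRingHom k (monMap h) f) :=
  Ideal.quotientMap_mk

theorem ringMap_mono {n : ℤ} {x y : Raw} (h : IsHom n x y) {u : W633.LT.Lat} (hu : u ∈ x.mon) :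
    ringMap k h (x.mono k u) = y.mono k (deck n u) := by
  rw [mono_of_mem hu, mono_of_mem (h u hu), ringMap_mk]
  congr 1
  rw [AddMonoidAlgebra.mapDomainRingHom_apply, AddMonoidAlgebra.mapDomain_single]
  rfl

theorem ringMap_refl (x : Raw) (f : x.ring k) : ringMap k (IsHom.refl x) f = f := by
  obtain ⟨f, rfl⟩ := Ideal.Quotient.mk_surjective f
  rw [ringMap_mk]
  congr 1
  have : (monMap (IsHom.refl x)) = AddMonoidHom.id x.mon := by
    ext m : 1
    exact Subtype.ext (deck_zero m.1)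
  rw [this, AddMonoidAlgebra.mapDomainRingHom_id]
  rfl

theorem ringMap_comp {n n' : ℤ} {x y z : Raw} (h : IsHom n x y) (h' : IsHom n' y z)
    (f : x.ring k) : ringMap k h' (ringMap k h f) = ringMap k (h.comp h') f := by
  obtain ⟨f, rfl⟩ := Ideal.Quotient.mk_surjective f
  rw [ringMap_mk, ringMap_mk, ringMap_mk]
  congr 1
  have : (monMap (h.comp h')) = (monMap h').comp (monMap h) := by
    ext m : 1
    exact Subtype.ext (deck_add n n' m.1)
  rw [this, AddMonoidAlgebra.mapDomainRingHom_comp]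
  rfl

end ring

/-! ### base change of free modules -/

theorem bc_free {A B J : Type} [CommRing A] [CommRing B] [Fintype J] [DecidableEq J]
    (ρ : A →+* B) (σ : J ≃ J) (c c' : J → B) (hc : ∀ j, c' j * c j = 1)
    (φ : (J → A) →+ (J → B)) (hφ : ∀ e j, φ e j = c j * ρ (e (σ j))) : IsBC ρ φ := by
  refine ⟨?_, ?_⟩
  · intro a e
    ext j
    rw [hφ, Pi.smul_apply, Pi.smul_apply, hφ, smul_eq_mul, smul_eq_mul, map_mul]
    ring
  · intro P _ _ g hg
    have hsingle : ∀ j, φ (Pi.single (σ j) 1) = Pi.single j (c j) := by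
      intro j
      ext j'
      rw [hφ]
      by_cases hj : j' = j
      · subst hj
        simp
      · have : σ j' ≠ σ j := fun h => hj (σ.injective h)
        simp [hj, this]
    refine ⟨∑ j, (LinearMap.proj (R := B) (φ := fun _ : J => B) j).smulRight
      (c' j • g (Pi.single (σ j) 1)), ?_, ?_⟩
    · intro e
      simp only [LinearMap.sum_apply, LinearMap.smulRight_apply, LinearMap.proj_apply]
      have h1 : ∀ j, φ e j • c' j • g (Pi.single (σ j) 1) = g (Pi.single (σ j) (e (σ j))) := by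
        intro j
        have h2 : (Pi.single (σ j) (e (σ j)) : J → A) = e (σ j) • Pi.single (σ j) (1 : A) := by
          rw [← Pi.single_smul, smul_eq_mul, mul_one]
        rw [h2, hg, hφ, smul_smul]
        congr 1
        linear_combination ρ (e (σ j)) * hc j
      simp only [h1]
      rw [← map_sum, Equiv.sum_comp σ (fun i => (Pi.single i (e i) : J → A)),
        Finset.univ_sum_single]
    · intro G hG
      apply LinearMap.pi_ext'
      intro j
      ext
      simp only [LinearMap.comp_apply, LinearMap.single_apply, LinearMap.sum_apply,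
        LinearMap.smulRight_apply, LinearMap.proj_apply]
      have h1 : G (Pi.single j 1) = c' j • g (Pi.single (σ j) 1) := by
        rw [← hG, hsingle, ← map_smul]
        congr 1
        rw [← Pi.single_smul, smul_eq_mul, hc]
      rw [h1, Finset.sum_eq_single j]
      · simp
      · intro b _ hb
        rw [Pi.single_eq_of_ne hb, zero_smul]
      · simp

theorem bc_one {A B : Type} [CommRing A] [CommRing B] (ρ : A →+* B) (c c' : B)
    (hc : c' * c = 1) (φ : A →+ B) (hφ : ∀ e, φ e = c * ρ e) : IsBC ρ φ := by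
  refine ⟨?_, ?_⟩
  · intro a e
    rw [hφ, smul_eq_mul, smul_eq_mul, hφ, map_mul]
    ring
  · intro P _ _ g hg
    refine ⟨LinearMap.toSpanSingleton B P (c' • g 1), ?_, ?_⟩
    · intro e
      have h1 : g e = ρ e • g 1 := by rw [← hg, smul_eq_mul, mul_one]
      rw [LinearMap.toSpanSingleton_apply, hφ, smul_smul, h1]
      congr 1
      linear_combination ρ e * hc
    · intro G hG
      ext
      rw [LinearMap.toSpanSingleton_apply, one_smul]
      have h1 : G c = g 1 := by rw [← hG 1, hφ, map_one, mul_one]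
      rw [← h1, ← map_smul, smul_eq_mul, hc]

/-! ### the rank two bundle -/

section bundle
variable {k : Type} [Field k] {S : Subdiv}

/-- the units condition -/
def Uni (μ : ZMod 2 → Chart S → W633.LT.Lat) : Prop :=
  ∀ {n : ℤ} {x y : Chart S}, IsHom n x.1 y.1 → ∀ j : ZMod 2,
    (deck n (μ (j - n) x) - μ j y) ∈ y.1.mon ∧ -(deck n (μ (j - n) x) - μ j y) ∈ y.1.mon

/-- the restriction maps -/
noncomputable def resE (k : Type) [Field k] (μ : ZMod 2 → Chart S → W633.LT.Lat) {n : ℤ}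
    {x y : Chart S} (h : IsHom n x.1 y.1) : (ZMod 2 → x.1.ring k) →+ (ZMod 2 → y.1.ring k) where
  toFun e := fun j => y.1.mono k (deck n (μ (j - n) x) - μ j y) * ringMap k h (e (j - n))
  map_zero' := by
    ext j
    simp
  map_add' e e' := by
    ext j
    simp [mul_add]

theorem resE_apply (μ : ZMod 2 → Chart S → W633.LT.Lat) {n : ℤ}
    {x y : Chart S} (h : IsHom n x.1 y.1) (e : ZMod 2 → x.1.ring k) (j : ZMod 2) :
    resE k μ h e j = y.1.mono k (deck n (μ (j - n) x) - μ j y) * ringMap k h (e (j - n)) := rfl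

theorem unit_mul {x : Raw} {u : W633.LT.Lat} (hu : u ∈ x.mon) (hu' : -u ∈ x.mon) :
    x.mono k (-u) * x.mono k u = 1 := by
  rw [mono_add hu' hu, neg_add_cancel, mono_zero]

theorem resE_bc (μ : ZMod 2 → Chart S → W633.LT.Lat) (hμ : Uni μ) {n : ℤ}
    {x y : Chart S} (h : IsHom n x.1 y.1) : IsBC (ringMap k h) (resE k μ h) :=
  bc_free (ringMap k h) (Equiv.subRight (n : ZMod 2))
    (fun j => y.1.mono k (deck n (μ (j - n) x) - μ j y))
    (fun j => y.1.mono k (-(deck n (μ (j - n) x) - μ j y)))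
    (fun j => unit_mul (hμ h j).1 (hμ h j).2) _ (fun _ _ => rfl)

theorem resE_refl (μ : ZMod 2 → Chart S → W633.LT.Lat) (x : Chart S)
    (e : ZMod 2 → x.1.ring k) : resE k μ (IsHom.refl x.1) e = e := by
  ext j
  rw [resE_apply, ringMap_refl, deck_zero, Int.cast_zero, sub_zero, sub_self, mono_zero, one_mul]

theorem resE_comp (μ : ZMod 2 → Chart S → W633.LT.Lat) (hμ : Uni μ) {n n' : ℤ}
    {x y z : Chart S} (h : IsHom n x.1 y.1) (h' : IsHom n' y.1 z.1)
    (e : ZMod 2 → x.1.ring k) :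
    resE k μ h' (resE k μ h e) = resE k μ (h.comp h') e := by
  ext j
  have hj : j - (n' : ZMod 2) - (n : ZMod 2) = j - ((n' + n : ℤ) : ZMod 2) := by
    push_cast
    ring
  rw [resE_apply, resE_apply, resE_apply, map_mul, ringMap_comp h h', ← mul_assoc,
    ringMap_mono h' (hμ h _).1, mono_add (hμ h' j).1 (h' _ (hμ h _).1), hj, deck_add]
  congr 2
  rw [map_sub]
  abel

/-- the rank two bundle -/
noncomputable def bunE (k : Type) [Field k] (μ : ZMod 2 → Chart S → W633.LT.Lat) (hμ : Uni μ) :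
    Bundle k S where
  mod x := ZMod 2 → x.1.ring k
  grp _ := inferInstance
  module _ := inferInstance
  finite _ := inferInstance
  projective _ := inferInstance
  res h := resE k μ h
  res_bc h := resE_bc μ hμ h
  res_refl x e := resE_refl μ x e
  res_comp h h' e := resE_comp μ hμ h h' e

/-- the units condition for line bundles -/
def Uni0 (ν : Chart S → W633.LT.Lat) : Prop :=
  ∀ {x y : Chart S}, IsHom 0 x.1 y.1 → (ν x - ν y) ∈ y.1.mon ∧ -(ν x - ν y) ∈ y.1.mon

/-- the restriction maps of a line bundle -/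
noncomputable def resL (k : Type) [Field k] (ν : Chart S → W633.LT.Lat)
    {x y : Chart S} (h : IsHom 0 x.1 y.1) : x.1.ring k →+ y.1.ring k where
  toFun e := y.1.mono k (ν x - ν y) * ringMap k h e
  map_zero' := by simp
  map_add' e e' := by simp [mul_add]

theorem resL_apply (ν : Chart S → W633.LT.Lat) {x y : Chart S} (h : IsHom 0 x.1 y.1)
    (e : x.1.ring k) : resL k ν h e = y.1.mono k (ν x - ν y) * ringMap k h e := rfl

/-- the line bundle -/
noncomputable def bunL (k : Type) [Field k] (ν : Chart S → W633.LT.Lat) (hν : Uni0 ν) :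
    Bundle0 k S where
  mod x := x.1.ring k
  grp _ := inferInstance
  module _ := inferInstance
  finite _ := inferInstance
  projective _ := inferInstance
  res h := resL k ν h
  res_bc {x y} h := bc_one (ringMap k h) (y.1.mono k (ν x - ν y)) (y.1.mono k (-(ν x - ν y)))
    (unit_mul (hν h).1 (hν h).2) _ (fun _ => rfl)
  res_refl x e := by
    show resL k ν (IsHom.refl x.1) e = e
    rw [resL_apply, ringMap_refl, sub_self, mono_zero, one_mul]
  res_comp {x y z} h h' e := by
    show resL k ν h' (resL k ν h e) = resL k ν (h.comp h') e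
    rw [resL_apply, resL_apply, resL_apply, map_mul, ringMap_comp h h', ← mul_assoc,
      ringMap_mono h' (hν h).1, deck_zero, mono_add (hν h').1 (by
        have := h' _ (hν h).1
        rwa [deck_zero] at this)]
    congr 2
    abel

theorem bunL_line (ν : Chart S → W633.LT.Lat) (hν : Uni0 ν) : IsLine (bunL k ν hν) ν :=
  ⟨fun x => LinearEquiv.refl (x.1.ring k) (x.1.ring k), fun _ _ => rfl⟩

theorem ex1 (μ : ZMod 2 → Chart S → W633.LT.Lat) {x y : Chart S} (h : IsHom 0 x.1 y.1)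
    (e : x.1.ring k) : resE k μ h (Pi.single 0 e) = Pi.single 0 (resL k (μ 0) h e) := by
  ext j
  rw [resE_apply, deck_zero, Int.cast_zero, sub_zero, resL_apply]
  by_cases hj : j = 0
  · subst hj
    rw [Pi.single_eq_same, Pi.single_eq_same]
  · rw [Pi.single_eq_of_ne hj, Pi.single_eq_of_ne hj, map_zero, mul_zero]

theorem ex2 (μ : ZMod 2 → Chart S → W633.LT.Lat) {x y : Chart S} (h : IsHom 0 x.1 y.1)
    (e : ZMod 2 → x.1.ring k) : resL k (μ 1) h (e 1) = resE k μ h e 1 := by
  rw [resE_apply, deck_zero, Int.cast_zero, sub_zero, resL_apply]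

theorem ex3 {R : Type} [CommRing R] : Function.Injective
    (fun e : R => (Pi.single 0 e : ZMod 2 → R)) := fun a b h => by
  have := congrFun h 0
  simpa using this

theorem ex4 {R : Type} [CommRing R] (e : ZMod 2 → R) :
    e 1 = 0 ↔ ∃ f : R, (Pi.single 0 f : ZMod 2 → R) = e := by
  constructor
  · intro he
    refine ⟨e 0, ?_⟩
    ext j
    have hj : ∀ j : ZMod 2, j = 0 ∨ j = 1 := by decide
    rcases hj j with rfl | rfl
    · rw [Pi.single_eq_same]
    · rw [Pi.single_eq_of_ne (by decide), he]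
  · rintro ⟨f, rfl⟩
    rw [Pi.single_eq_of_ne (by decide)]

theorem ex5 {R : Type} [CommRing R] : Function.Surjective (fun e : ZMod 2 → R => e 1) :=
  fun f => ⟨fun _ => f, rfl⟩

theorem bun_exact (μ : ZMod 2 → Chart S → W633.LT.Lat) (hμ : Uni μ) (h0 : Uni0 (μ 0))
    (h1 : Uni0 (μ 1)) : IsExact0 (bunL k (μ 0) h0) (bunE k μ hμ).cov (bunL k (μ 1) h1) :=
  ⟨fun x => LinearMap.single (x.1.ring k) (fun _ : ZMod 2 => x.1.ring k) 0,
    fun x => LinearMap.proj (R := x.1.ring k) (φ := fun _ : ZMod 2 => x.1.ring k) 1,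
    fun h e => ex1 μ h e, fun h e => ex2 μ h e, fun x => ⟨ex3 (R := x.1.ring k), ex4 (R := x.1.ring k),
      ex5 (R := x.1.ring k)⟩⟩

end bundle

/-! ### the key lemma -/

section key
variable {S : Subdiv}

theorem sign_aux (a b : SignType) (h1 : 0 ≤ (a : ℤ) → 0 ≤ (b : ℤ))
    (h2 : 0 ≤ -(a : ℤ) → 0 ≤ -(b : ℤ)) : b = a ∨ b = 0 := by
  rcases a with _ | _ | _ <;> rcases b with _ | _ | _ <;> simp_all

/-- consequences of `IsHom` -/
theorem isHom_facts {n : ℤ} {x y : Raw} (hx : x.l ≤ x.r) (h : IsHom n x y) :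
    (y.a = (if Even n then x.a else x.b) ∨ y.a = 0) ∧
    (y.b = (if Even n then x.b else x.a) ∨ y.b = 0) ∧
    x.l + 2 * n ≤ y.l ∧ y.r ≤ x.r + 2 * n := by
  have t1 : ∀ s : ℤ, 0 ≤ (x.a : ℤ) * s → ((s, 0, 0, 0) : ℤ × ℤ × ℤ × ℤ) ∈ x.mon := by
    intro s hs
    refine ⟨hs, ?_, ?_, ?_⟩ <;> simp
  have t2 : ∀ s : ℤ, 0 ≤ (x.b : ℤ) * s → ((0, s, 0, 0) : ℤ × ℤ × ℤ × ℤ) ∈ x.mon := by
    intro s hs
    refine ⟨?_, hs, ?_, ?_⟩ <;> simp
  refine ⟨?_, ?_, ?_, ?_⟩
  · apply sign_aux
    · intro hs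
      split_ifs at hs with hn
      · have := (h _ (t1 1 (by simpa using hs))).1
        simpa [deck, hn] using this
      · have := (h _ (t2 1 (by simpa using hs))).1
        simpa [deck, hn] using this
    · intro hs
      split_ifs at hs with hn
      · have := (h _ (t1 (-1) (by simpa using hs))).1
        simpa [deck, hn] using this
      · have := (h _ (t2 (-1) (by simpa using hs))).1
        simpa [deck, hn] using this
  · apply sign_aux
    · intro hs
      split_ifs at hs with hn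
      · have := (h _ (t2 1 (by simpa using hs))).2.1
        simpa [deck, hn] using this
      · have := (h _ (t1 1 (by simpa using hs))).2.1
        simpa [deck, hn] using this
    · intro hs
      split_ifs at hs with hn
      · have := (h _ (t2 (-1) (by simpa using hs))).2.1
        simpa [deck, hn] using this
      · have := (h _ (t1 (-1) (by simpa using hs))).2.1
        simpa [deck, hn] using this
  · have hd : (0 : ℚ) < x.l.den := by exact_mod_cast x.l.den_pos
    have hv : x.l * x.l.den = x.l.num := Rat.mul_den_eq_num x.l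
    have hm : ((0, 0, (x.l.den : ℤ), -x.l.num) : ℤ × ℤ × ℤ × ℤ) ∈ x.mon := by
      refine ⟨by simp, by simp, ?_, ?_⟩
      · show (0 : ℚ) ≤ ((x.l.den : ℤ) : ℚ) * x.l + ((-x.l.num : ℤ) : ℚ)
        push_cast
        linarith
      · show (0 : ℚ) ≤ ((x.l.den : ℤ) : ℚ) * x.r + ((-x.l.num : ℤ) : ℚ)
        push_cast
        nlinarith
    have h3 := (h _ hm).2.2.1
    simp only [deck, AddMonoidHom.coe_mk, ZeroHom.coe_mk] at h3
    push_cast at h3
    have h4 : 0 ≤ (x.l.den : ℚ) * (y.l - x.l - 2 * n) := by nlinarith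
    have h5 := nonneg_of_mul_nonneg_right h4 hd
    linarith
  · have hd : (0 : ℚ) < x.r.den := by exact_mod_cast x.r.den_pos
    have hv : x.r * x.r.den = x.r.num := Rat.mul_den_eq_num x.r
    have hm : ((0, 0, -(x.r.den : ℤ), x.r.num) : ℤ × ℤ × ℤ × ℤ) ∈ x.mon := by
      refine ⟨by simp, by simp, ?_, ?_⟩
      · show (0 : ℚ) ≤ ((-(x.r.den : ℤ) : ℤ) : ℚ) * x.l + ((x.r.num : ℤ) : ℚ)
        push_cast
        nlinarith
      · show (0 : ℚ) ≤ ((-(x.r.den : ℤ) : ℤ) : ℚ) * x.r + ((x.r.num : ℤ) : ℚ)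
        push_cast
        linarith
    have h3 := (h _ hm).2.2.2
    simp only [deck, AddMonoidHom.coe_mk, ZeroHom.coe_mk] at h3
    push_cast at h3
    have h4 : 0 ≤ (x.r.den : ℚ) * (x.r + 2 * n - y.r) := by nlinarith
    have h5 := nonneg_of_mul_nonneg_right h4 hd
    linarith

theorem mem_of_zero {y : Raw} {u : ℤ × ℤ × ℤ × ℤ} (h1 : (y.a : ℤ) * u.1 = 0)
    (h2 : (y.b : ℤ) * u.2.1 = 0) (h3 : (u.2.2.1 : ℚ) * y.l + u.2.2.2 = 0)
    (h4 : (u.2.2.1 : ℚ) * y.r + u.2.2.2 = 0) : u ∈ y.mon ∧ -u ∈ y.mon := by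
  refine ⟨⟨h1.ge, h2.ge, h3.ge, h4.ge⟩, ?_, ?_, ?_, ?_⟩
  · show 0 ≤ (y.a : ℤ) * (-u.1)
    rw [mul_neg, h1, neg_zero]
  · show 0 ≤ (y.b : ℤ) * (-u.2.1)
    rw [mul_neg, h2, neg_zero]
  · show (0 : ℚ) ≤ ((-u.2.2.1 : ℤ) : ℚ) * y.l + ((-u.2.2.2 : ℤ) : ℚ)
    push_cast
    linarith
  · show (0 : ℚ) ≤ ((-u.2.2.1 : ℤ) : ℚ) * y.r + ((-u.2.2.2 : ℤ) : ℚ)
    push_cast
    linarith

/-- the exponents -/
noncomputable def mu (m m' : ℚ → ℚ → ℤ × ℤ) (j : ZMod 2) (x : Chart S) : ℤ × ℤ × ℤ × ℤ :=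
  if j = 0 then lam 0 1 m x else lam 1 0 m' x

theorem mu_zero (m m' : ℚ → ℚ → ℤ × ℤ) (x : Chart S) : mu m m' 0 x = lam 0 1 m x := rfl
theorem mu_one (m m' : ℚ → ℚ → ℤ × ℤ) (x : Chart S) : mu m m' 1 x = lam 1 0 m' x := rfl

/-- the functions -/
def FF (fn : ℚ → ℚ) (j : ZMod 2) (q : ℚ) : ℚ := if j = 0 then fn q else fn (q + 2)

theorem FF_period (fn : ℚ → ℚ) (hfn : ∀ q, fn (q + 4) = fn q) (n : ℤ) (j : ZMod 2) (q : ℚ) :
    FF fn (j - n) (q - 2 * n) = FF fn j q := by
  have hp : Function.Periodic fn 4 := hfn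
  have hj : ∀ j : ZMod 2, j = 0 ∨ j = 1 := by decide
  rcases Int.even_or_odd' n with ⟨l, rfl | rfl⟩
  · have h1 : (((2 * l : ℤ)) : ZMod 2) = 0 := by
      push_cast
      rw [show (2 : ZMod 2) = 0 from rfl, zero_mul]
    have h2 : ∀ q : ℚ, fn (q - 2 * ((2 * l : ℤ) : ℚ)) = fn q := by
      intro q
      have := hp.int_mul (-l) q
      rw [← this]
      congr 1
      push_cast
      ring
    rw [h1, sub_zero]
    unfold FF
    split_ifs
    · exact h2 q
    · have := h2 (q + 2)
      rw [← this]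
      congr 1
      ring
  · have h1 : (((2 * l + 1 : ℤ)) : ZMod 2) = 1 := by
      push_cast
      rw [show (2 : ZMod 2) = 0 from rfl, zero_mul, zero_add]
    rw [h1]
    rcases hj j with rfl | rfl
    · have h2 : ((0 : ZMod 2) - 1) = 1 := by decide
      rw [h2]
      show fn (q - 2 * ((2 * l + 1 : ℤ) : ℚ) + 2) = fn q
      have := hp.int_mul (-l) q
      rw [← this]
      congr 1
      push_cast
      ring
    · have h2 : ((1 : ZMod 2) - 1) = 0 := by decide
      rw [h2]
      show fn (q - 2 * ((2 * l + 1 : ℤ) : ℚ)) = fn (q + 2)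
      have := hp.int_mul (-(l + 1)) (q + 2)
      rw [← this]
      congr 1
      push_cast
      ring

theorem mu_lift (fn : ℚ → ℚ) (m m' : ℚ → ℚ → ℤ × ℤ) (hm : IsLift S fn m)
    (hm' : IsLift S (fun q => fn (q + 2)) m') (j : ZMod 2) (x : Chart S) (q : ℚ)
    (h1 : x.1.l ≤ q) (h2 : q ≤ x.1.r) :
    FF fn j q = ((mu m m' j x).2.2.1 : ℚ) * q + (mu m m' j x).2.2.2 := by
  unfold FF mu
  split_ifs
  · exact hm x q h1 h2
  · exact hm' x q h1 h2

theorem mu_fst (m m' : ℚ → ℚ → ℤ × ℤ) (j : ZMod 2) (x : Chart S) :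
    (mu m m' j x).1 = if j = 0 then 0 else (if x.1.a = -1 then 1 else 0) := by
  unfold mu
  split_ifs <;> simp_all [lam]

theorem mu_snd (m m' : ℚ → ℚ → ℤ × ℤ) (j : ZMod 2) (x : Chart S) :
    (mu m m' j x).2.1 = if j = 0 then (if x.1.b = -1 then 1 else 0) else 0 := by
  unfold mu
  split_ifs <;> simp_all [lam]

theorem sgn_aux {a b : SignType} (h : b = a ∨ b = 0) :
    (b : ℤ) * ((if a = -1 then 1 else 0) - (if b = -1 then 1 else 0)) = 0 := by
  rcases h with rfl | rfl
  · simp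
  · simp

theorem mu_uni (fn : ℚ → ℚ) (hfn : ∀ q, fn (q + 4) = fn q) (m m' : ℚ → ℚ → ℤ × ℤ)
    (hm : IsLift S fn m) (hm' : IsLift S (fun q => fn (q + 2)) m') : Uni (S := S) (mu m m') := by
  intro n x y h j
  obtain ⟨fa, fb, fl, fr⟩ := isHom_facts x.2.1 h
  have haff : ∀ q : ℚ, y.1.l ≤ q → q ≤ y.1.r →
      ((deck n (mu m m' (j - n) x) - mu m m' j y).2.2.1 : ℚ) * q +
        (deck n (mu m m' (j - n) x) - mu m m' j y).2.2.2 = 0 := by
    intro q h1 h2
    have e1 := mu_lift fn m m' hm hm' j y q h1 h2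
    have e2 := mu_lift fn m m' hm hm' (j - n) x (q - 2 * n) (by linarith) (by linarith)
    have e3 := FF_period fn hfn n j q
    rw [e1, e2] at e3
    show ((((mu m m' (j - n) x).2.2.1 - (mu m m' j y).2.2.1 : ℤ)) : ℚ) * q +
      (((mu m m' (j - n) x).2.2.2 - 2 * n * (mu m m' (j - n) x).2.2.1 -
        (mu m m' j y).2.2.2 : ℤ) : ℚ) = 0
    push_cast
    linarith
  have hj : ∀ j : ZMod 2, j = 0 ∨ j = 1 := by decide
  apply mem_of_zero
  · show (y.1.a : ℤ) * ((if Even n then (mu m m' (j - n) x).1 else (mu m m' (j - n) x).2.1) -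
      (mu m m' j y).1) = 0
    by_cases hn : Even n
    · have hn0 : ((n : ℤ) : ZMod 2) = 0 := by
        rw [ZMod.intCast_zmod_eq_zero_iff_dvd]
        exact even_iff_two_dvd.mp hn
      rw [if_pos hn] at fa ⊢
      rw [hn0, sub_zero, mu_fst, mu_fst]
      rcases hj j with rfl | rfl
      · simp
      · have h1 : ¬ (1 : ZMod 2) = 0 := by decide
        rw [if_neg h1, if_neg h1]
        exact sgn_aux fa
    · have hn1 : ((n : ℤ) : ZMod 2) = 1 := by
        have := (ZMod.intCast_eq_intCast_iff_dvd_sub n 1 2)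
        obtain ⟨l, hl⟩ := Int.not_even_iff_odd.mp hn
        rw [hl]
        push_cast
        rw [show (2 : ZMod 2) = 0 from rfl, zero_mul, zero_add]
      rw [if_neg hn] at fa ⊢
      rw [hn1, mu_fst, mu_snd]
      rcases hj j with rfl | rfl
      · have h1 : ¬ (0 : ZMod 2) - 1 = 0 := by decide
        rw [if_neg h1]
        simp
      · have h1 : (1 : ZMod 2) - 1 = 0 := by decide
        have h2 : ¬ (1 : ZMod 2) = 0 := by decide
        rw [if_pos h1, if_neg h2]
        exact sgn_aux fa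
  · show (y.1.b : ℤ) * ((if Even n then (mu m m' (j - n) x).2.1 else (mu m m' (j - n) x).1) -
      (mu m m' j y).2.1) = 0
    by_cases hn : Even n
    · have hn0 : ((n : ℤ) : ZMod 2) = 0 := by
        rw [ZMod.intCast_zmod_eq_zero_iff_dvd]
        exact even_iff_two_dvd.mp hn
      rw [if_pos hn] at fb ⊢
      rw [hn0, sub_zero, mu_snd, mu_snd]
      rcases hj j with rfl | rfl
      · rw [if_pos rfl, if_pos rfl]
        exact sgn_aux fb
      · have h1 : ¬ (1 : ZMod 2) = 0 := by decide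
        rw [if_neg h1, if_neg h1]
        simp
    · have hn1 : ((n : ℤ) : ZMod 2) = 1 := by
        obtain ⟨l, hl⟩ := Int.not_even_iff_odd.mp hn
        rw [hl]
        push_cast
        rw [show (2 : ZMod 2) = 0 from rfl, zero_mul, zero_add]
      rw [if_neg hn] at fb ⊢
      rw [hn1, mu_fst, mu_snd]
      rcases hj j with rfl | rfl
      · have h1 : ¬ (0 : ZMod 2) - 1 = 0 := by decide
        rw [if_neg h1, if_pos rfl]
        exact sgn_aux fb
      · have h1 : (1 : ZMod 2) - 1 = 0 := by decide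
        have h2 : ¬ (1 : ZMod 2) = 0 := by decide
        rw [if_pos h1, if_neg h2]
        simp
  · exact haff _ le_rfl y.2.1
  · exact haff _ y.2.1 le_rfl

theorem uni0_of_uni {μ : ZMod 2 → Chart S → W633.LT.Lat} (hμ : Uni μ) (j : ZMod 2) :
    Uni0 (μ j) := by
  intro x y h
  have := hμ h j
  rw [Int.cast_zero, sub_zero, deck_zero] at this
  exact this

theorem xExist : W633.LT.XExist := by
  intro k _ S fn m m' hfn hm hm'
  have hU : Uni (S := S) (mu m m') := mu_uni fn hfn m m' hm hm'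
  exact ⟨bunE k (mu m m') hU, bunL k (mu m m' 0) (uni0_of_uni hU 0),
    bunL k (mu m m' 1) (uni0_of_uni hU 1), bunL_line _ _, bunL_line _ _, bun_exact _ _ _ _⟩

end key

end Pool.Agent.W427.LG
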